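import Mathlib

set_option autoImplicit false
set_option warn.classDefReducibility false

namespace Pool.Agent.H15TM

open Set Filter Topology
open scoped Manifold ContDiff

section
universe u v

variable {E : Type v} [NormedAddCommGroup E] [NormedSpace ℂ E]
  {M C : Type u} {N : C → Type u} [∀ c, TopologicalSpace (N c)]

/-- the topology -/
def gTop (Φ : (Σ c, N c) ≃ M) : TopologicalSpace M := TopologicalSpace.induced Φ.symm inferInstance

/-- the homeomorphism -/
def gHom (Φ : (Σ c, N c) ≃ M) : @Homeomorph (Σ c, N c) M _ (gTop Φ) :=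
  let _ := gTop Φ
  (Φ.symm.toHomeomorphOfIsInducing ⟨rfl⟩).symm

/-- the pieces -/
def pc (Φ : (Σ c, N c) ≃ M) (c : C) (s : N c) : M := Φ ⟨c, s⟩

lemma gEmb (Φ : (Σ c, N c) ≃ M) (c : C) :
    @IsOpenEmbedding (N c) M _ (gTop Φ) (pc Φ c) := by
  let _ := gTop Φ
  exact (gHom Φ).isOpenEmbedding.comp IsOpenEmbedding.sigmaMk

variable [∀ c, ChartedSpace E (N c)]

/-- the charts -/
noncomputable def gCh (Φ : (Σ c, N c) ≃ M) : @ChartedSpace E _ M (gTop Φ) :=
  let _ := gTop Φ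
  { atlas := ⋃ c, (fun e : OpenPartialHomeomorph (N c) E => e.lift_openEmbedding (gEmb Φ c)) '' atlas E (N c)
    chartAt := fun m => (chartAt E (Φ.symm m).2).lift_openEmbedding (gEmb Φ (Φ.symm m).1)
    mem_chart_source := fun m => ⟨(Φ.symm m).2, mem_chart_source E _, Φ.apply_symm_apply m⟩
    chart_mem_atlas := fun m => mem_iUnion.2 ⟨(Φ.symm m).1, _, chart_mem_atlas E _, rfl⟩ }

lemma gMan (Φ : (Σ c, N c) ≃ M) [hN : ∀ c, IsManifold 𝓘(ℂ, E) ω (N c)] :
    @IsManifold ℂ _ E _ _ E _ 𝓘(ℂ, E) ω M (gTop Φ) (gCh Φ) := by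
  let _ := gTop Φ
  let _ : ChartedSpace E M := gCh Φ
  refine @IsManifold.mk ℂ _ E _ _ E _ 𝓘(ℂ, E) ω M _ _ ⟨fun {e e'} he he' => ?_⟩
  obtain ⟨c, f, hf, rfl⟩ := mem_iUnion.1 he
  obtain ⟨c', f', hf', rfl⟩ := mem_iUnion.1 he'
  by_cases h : c = c'
  · subst h
    rw [f.lift_openEmbedding_trans f' (gEmb Φ c)]
    exact (hN c).compatible hf hf'
  · apply ContDiffGroupoid.mem_of_source_eq_empty
    ext x
    refine ⟨fun hx => ?_, fun hx => hx.elim⟩
    obtain ⟨y, hy, hyx⟩ := hx.2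
    have h1 : pc Φ c' y = pc Φ c (f.symm x) := hyx
    have h2 := Φ.injective h1
    exact h (congrArg Sigma.fst h2).symm

lemma gLoc (Φ : (Σ c, N c) ≃ M) [hN : ∀ c, IsManifold 𝓘(ℂ, E) ω (N c)] (c : C) :
    @IsLocalDiffeomorph ℂ _ E _ _ E _ _ E _ E _ 𝓘(ℂ, E) 𝓘(ℂ, E) (N c) _ _ M (gTop Φ) (gCh Φ) ω
      (pc Φ c) := by
  let _ := gTop Φ
  let _ : ChartedSpace E M := gCh Φ
  have : IsManifold 𝓘(ℂ, E) ω M := gMan Φ
  intro s
  let e : OpenPartialHomeomorph (N c) E := chartAt E s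
  let e' : OpenPartialHomeomorph M E := e.lift_openEmbedding (gEmb Φ c)
  have he : e ∈ IsManifold.maximalAtlas 𝓘(ℂ, E) ω (N c) := IsManifold.chart_mem_maximalAtlas s
  have he' : e' ∈ IsManifold.maximalAtlas 𝓘(ℂ, E) ω M :=
    IsManifold.subset_maximalAtlas (mem_iUnion.2 ⟨c, e, chart_mem_atlas E _, rfl⟩)
  have hs : (e.trans e'.symm).source = e.source := by
    rw [OpenPartialHomeomorph.trans_source]
    refine inter_eq_left.2 fun x hx => ?_
    exact e.map_source hx
  refine ⟨⟨(e.trans e'.symm).toPartialEquiv, (e.trans e'.symm).open_source,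
    (e.trans e'.symm).open_target, ?_, ?_⟩, ?_, ?_⟩
  · have h0 := contMDiffOn_of_mem_maximalAtlas he
    have h2 := contMDiffOn_symm_of_mem_maximalAtlas he'
    have h1 : ContMDiffOn 𝓘(ℂ, E) 𝓘(ℂ, E) ω (e'.symm ∘ e) (e.source ∩ e ⁻¹' e'.target) :=
      h2.comp (h0.mono inter_subset_left) (fun x hx => hx.2)
    exact h1
  · have h0 := contMDiffOn_of_mem_maximalAtlas he'
    have h2 := contMDiffOn_symm_of_mem_maximalAtlas he
    have h1 : ContMDiffOn 𝓘(ℂ, E) 𝓘(ℂ, E) ω (e.symm ∘ e') (e'.source ∩ e' ⁻¹' e.target) :=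
      h2.comp (h0.mono inter_subset_left) (fun x hx => hx.2)
    refine h1.mono ?_
    intro x hx
    have : x ∈ (e.trans e'.symm).target := hx
    rw [OpenPartialHomeomorph.trans_target] at this
    exact this
  · show s ∈ (e.trans e'.symm).source
    rw [hs]
    exact mem_chart_source E s
  · intro x hx
    have hx' : x ∈ e.source := hs ▸ hx
    show pc Φ c x = pc Φ c (e.symm (e x))
    rw [e.left_inv hx']

/-- the connected components -/
lemma gConn (Φ : (Σ c, N c) ≃ M) [hN : ∀ c, ConnectedSpace (N c)] (c : C) (s : N c) :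
    @connectedComponent M (gTop Φ) (pc Φ c s) = range (pc Φ c) := by
  let _ := gTop Φ
  apply Subset.antisymm
  · have hcl : IsClopen (range (pc Φ c)) := by
      refine ⟨⟨?_⟩, (gEmb Φ c).isOpen_range⟩
      have h1 : (range (pc Φ c))ᶜ = ⋃ (d : C) (_ : d ≠ c), range (pc Φ d) := by
        ext m
        simp only [mem_compl_iff, mem_iUnion, exists_prop]
        constructor
        · intro h
          refine ⟨(Φ.symm m).1, fun hc => h ?_, (Φ.symm m).2, Φ.apply_symm_apply m⟩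
          subst hc
          exact ⟨(Φ.symm m).2, Φ.apply_symm_apply m⟩
        · rintro ⟨d, hd, x, rfl⟩ ⟨y, hy⟩
          exact hd (congrArg Sigma.fst (Φ.injective hy)).symm
      rw [h1]
      exact isOpen_iUnion fun d => isOpen_iUnion fun _ => (gEmb Φ d).isOpen_range
    exact hcl.connectedComponent_subset ⟨s, rfl⟩
  · exact (isPreconnected_range (gEmb Φ c).continuous).subset_connectedComponent ⟨s, rfl⟩

lemma gT2 (Φ : (Σ c, N c) ≃ M) [hN : ∀ c, T2Space (N c)] : @T2Space M (gTop Φ) := by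
  let _ := gTop Φ
  exact (gHom Φ).t2Space

end

end Pool.Agent.H15TM
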